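import Mathlib

namespace Pool.Agent.Results.MP_2c7719_nt.SymmetricQuartics

lemma not_sq_mul (a b : ℤ) (hb : b ≠ 0) (h : ¬ IsSquare a) : ¬ IsSquare (a * b ^ 2) := by
  rintro ⟨r, hr⟩
  apply h
  rw [← Rat.isSquare_intCast_iff]
  refine ⟨(r : ℚ) / b, ?_⟩
  have hb' : (b : ℚ) ≠ 0 := by exact_mod_cast hb
  field_simp
  have : (a : ℚ) * b ^ 2 = r * r := by exact_mod_cast hr
  linarith [this]

lemma pell_big (d N : ℤ) (hd : 0 < d) (hns : ¬ IsSquare d) (hN : 0 < N) :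
    ∃ x y : ℤ, x ^ 2 - d * y ^ 2 = 1 ∧ 0 < x ∧ N ≤ y := by
  obtain ⟨x0, y0, h, hy⟩ := Pell.exists_of_not_isSquare (d := d * N ^ 2) (by positivity)
    (not_sq_mul d N hN.ne' hns)
  have hx0 : x0 ≠ 0 := by
    rintro rfl
    have : 0 < d * N ^ 2 * y0 ^ 2 := by positivity
    nlinarith
  have hay : 1 ≤ |y0| := Int.one_le_abs hy
  refine ⟨|x0|, N * |y0|, ?_, by positivity, ?_⟩
  · have e1 : |x0| ^ 2 - d * (N * |y0|) ^ 2 = x0 ^ 2 - d * N ^ 2 * y0 ^ 2 := by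
      rw [mul_pow, sq_abs, sq_abs]; ring
    rw [e1]; exact h
  · have h2 : N * 1 ≤ N * |y0| := mul_le_mul_of_nonneg_left hay hN.le
    linarith

/-- The algebraic identity behind the construction. -/
lemma ident (α γ m z x y : ℤ) (hz : z * γ = 2 * α * m ^ 2)
    (hp : x ^ 2 - (144 * z ^ 4 + 460 * z ^ 3 + 201 * z ^ 2 + 30 * z + 1) * y ^ 2 = 1) :
    (α * (m * (x - (12 * z ^ 2 + 29 * z + 5) * y)) ^ 4
        + γ * (m * (x - (12 * z ^ 2 + 29 * z + 5) * y)) ^ 2)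
      + (α * (m * (2 * (x - (12 * z ^ 2 + 6 * z) * y))) ^ 4
        + γ * (m * (2 * (x - (12 * z ^ 2 + 6 * z) * y))) ^ 2)
      = (α * (m * (x - (12 * z ^ 2 - 3 * z - 3) * y)) ^ 4
        + γ * (m * (x - (12 * z ^ 2 - 3 * z - 3) * y)) ^ 2)
      + (α * (m * (2 * (x - (12 * z ^ 2 + 8 * z + 2) * y))) ^ 4
        + γ * (m * (2 * (x - (12 * z ^ 2 + 8 * z + 2) * y))) ^ 2) := by
  linear_combination (96 * α * m ^ 4 * (x - 3 * ((1 + z) * (1 + 4 * z)) * y) * y) * hp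
    - (48 * m ^ 2 * (x - 3 * ((1 + z) * (1 + 4 * z)) * y) * y) * hz

lemma lowerSq (z : ℤ) (hz : 200 ≤ z ∨ z ≤ -200) :
    (72 * z ^ 2 + 115 * z - 42) ^ 2
      < 36 * (144 * z ^ 4 + 460 * z ^ 3 + 201 * z ^ 2 + 30 * z + 1) := by
  have : 0 < 59 * z ^ 2 + 10740 * z - 1728 := by rcases hz with h | h <;> nlinarith
  nlinarith

lemma upperSq (z : ℤ) (hz : 200 ≤ z ∨ z ≤ -200) :
    36 * (144 * z ^ 4 + 460 * z ^ 3 + 201 * z ^ 2 + 30 * z + 1)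
      < (72 * z ^ 2 + 115 * z - 41) ^ 2 := by
  have : 0 < 85 * z ^ 2 - 10510 * z + 1645 := by rcases hz with h | h <;> nlinarith
  nlinarith

lemma nonsq (z : ℤ) (hz : 200 ≤ z ∨ z ≤ -200) :
    ¬ IsSquare (144 * z ^ 4 + 460 * z ^ 3 + 201 * z ^ 2 + 30 * z + 1) := by
  rintro ⟨r, hr⟩
  have h1 := lowerSq z hz
  have h2 := upperSq z hz
  have e : 36 * (144 * z ^ 4 + 460 * z ^ 3 + 201 * z ^ 2 + 30 * z + 1) = (6 * |r|) ^ 2 := by
    rw [hr, mul_pow, sq_abs]; ring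
  rw [e] at h1 h2
  have hK : 0 < 72 * z ^ 2 + 115 * z - 42 := by rcases hz with h | h <;> nlinarith
  have h3 : 72 * z ^ 2 + 115 * z - 42 < 6 * |r| := lt_of_pow_lt_pow_left₀ 2 (by positivity) h1
  have h4 : 6 * |r| < 72 * z ^ 2 + 115 * z - 41 :=
    lt_of_pow_lt_pow_left₀ 2 (by linarith) h2
  linarith

lemma order_pos (z x y : ℤ) (hz : 200 ≤ z) (hx : 0 < x) (hy : 0 < y)
    (hp : x ^ 2 - (144 * z ^ 4 + 460 * z ^ 3 + 201 * z ^ 2 + 30 * z + 1) * y ^ 2 = 1) :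
    y ≤ |x - (12 * z ^ 2 + 29 * z + 5) * y| ∧
    (x - (12 * z ^ 2 + 29 * z + 5) * y) ^ 2 < (x - (12 * z ^ 2 - 3 * z - 3) * y) ^ 2 ∧
    (x - (12 * z ^ 2 - 3 * z - 3) * y) ^ 2 < (2 * (x - (12 * z ^ 2 + 8 * z + 2) * y)) ^ 2 ∧
    (2 * (x - (12 * z ^ 2 + 8 * z + 2) * y)) ^ 2 < (2 * (x - (12 * z ^ 2 + 6 * z) * y)) ^ 2 := by
  have hy2 : 1 ≤ y ^ 2 := by nlinarith
  have hlow : (12 * z ^ 2 + 19 * z + 7) * y < x := by
    apply lt_of_pow_lt_pow_left₀ 2 hx.le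
    have h1 : 0 < 4 * z ^ 3 - 328 * z ^ 2 - 236 * z - 48 := by
      nlinarith [mul_nonneg (by linarith : (0 : ℤ) ≤ z - 200) (sq_nonneg z)]
    have h2 : 0 < (4 * z ^ 3 - 328 * z ^ 2 - 236 * z - 48) * y ^ 2 := by positivity
    linear_combination h2 - hp
  have hup : x < (12 * z ^ 2 + 20 * z) * y := by
    apply lt_of_pow_lt_pow_left₀ 2 (by positivity)
    have h1 : 1 < 20 * z ^ 3 + 199 * z ^ 2 - 30 * z - 1 := by
      nlinarith [mul_nonneg (by linarith : (0 : ℤ) ≤ z - 200) (sq_nonneg z)]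
    have h2 : 1 < (20 * z ^ 3 + 199 * z ^ 2 - 30 * z - 1) * y ^ 2 := by nlinarith
    linear_combination h2 + hp
  have hzy : 0 < z * y := by positivity
  refine ⟨?_, ?_, ?_, ?_⟩
  · rw [abs_of_neg (by nlinarith)]
    nlinarith
  · have h1 : 0 < ((32 * z + 8) * y) * (2 * x - (24 * z ^ 2 + 26 * z + 2) * y) :=
      mul_pos (by positivity) (by nlinarith)
    linear_combination h1
  · have h1 : 0 < (x - (12 * z ^ 2 + 19 * z + 7) * y) * (3 * x - (36 * z ^ 2 + 13 * z + 1) * y) :=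
      mul_pos (by linarith) (by nlinarith)
    linear_combination h1
  · have h1 : 0 < ((4 * z + 4) * y) * (4 * x - (48 * z ^ 2 + 28 * z + 4) * y) :=
      mul_pos (by positivity) (by nlinarith)
    linear_combination h1

lemma order_neg (z x y : ℤ) (hz : z ≤ -200) (hx : 0 < x) (hy : 0 < y)
    (hp : x ^ 2 - (144 * z ^ 4 + 460 * z ^ 3 + 201 * z ^ 2 + 30 * z + 1) * y ^ 2 = 1) :
    y ≤ |x - (12 * z ^ 2 + 29 * z + 5) * y| ∧
    (x - (12 * z ^ 2 + 29 * z + 5) * y) ^ 2 < (x - (12 * z ^ 2 - 3 * z - 3) * y) ^ 2 ∧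
    (x - (12 * z ^ 2 - 3 * z - 3) * y) ^ 2 < (2 * (x - (12 * z ^ 2 + 8 * z + 2) * y)) ^ 2 ∧
    (2 * (x - (12 * z ^ 2 + 8 * z + 2) * y)) ^ 2 < (2 * (x - (12 * z ^ 2 + 6 * z) * y)) ^ 2 := by
  have hy2 : 1 ≤ y ^ 2 := by nlinarith
  have hup : x < (12 * z ^ 2 + 19 * z + 7) * y := by
    apply lt_of_pow_lt_pow_left₀ 2
    · have : 0 ≤ 12 * z ^ 2 + 19 * z + 7 := by nlinarith
      positivity
    have h1 : 1 < -4 * z ^ 3 + 328 * z ^ 2 + 236 * z + 48 := by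
      nlinarith [mul_nonneg (by linarith : (0 : ℤ) ≤ -200 - z) (sq_nonneg z)]
    have h2 : 1 < (-4 * z ^ 3 + 328 * z ^ 2 + 236 * z + 48) * y ^ 2 := by nlinarith
    linear_combination h2 + hp
  have hlow : (12 * z ^ 2 + 20 * z) * y < x := by
    apply lt_of_pow_lt_pow_left₀ 2 hx.le
    have h1 : 0 < -20 * z ^ 3 - 199 * z ^ 2 + 30 * z + 1 := by
      nlinarith [mul_nonneg (by linarith : (0 : ℤ) ≤ -200 - z) (sq_nonneg z)]
    have h2 : 0 < (-20 * z ^ 3 - 199 * z ^ 2 + 30 * z + 1) * y ^ 2 := by positivity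
    linear_combination h2 - hp
  have hzy : 0 < -z * y := mul_pos (by linarith) hy
  have hzy' : 0 ≤ (-200 - z) * y := mul_nonneg (by linarith) hy.le
  refine ⟨?_, ?_, ?_, ?_⟩
  · rw [abs_of_pos (by nlinarith)]
    nlinarith
  · have h1 : 0 < ((32 * z + 8) * y) * (2 * x - (24 * z ^ 2 + 26 * z + 2) * y) :=
      mul_pos_of_neg_of_neg (by nlinarith) (by nlinarith)
    linear_combination h1
  · have h1 : 0 < (x - (12 * z ^ 2 + 19 * z + 7) * y) * (3 * x - (36 * z ^ 2 + 13 * z + 1) * y) :=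
      mul_pos_of_neg_of_neg (by linarith) (by nlinarith)
    linear_combination h1
  · have h1 : 0 < ((4 * z + 4) * y) * (4 * x - (48 * z ^ 2 + 28 * z + 4) * y) :=
      mul_pos_of_neg_of_neg (by nlinarith) (by nlinarith)
    linear_combination h1

lemma coreZ (α γ B : ℤ) :
    ∃ a c d b : ℤ, B ≤ a ∧ 0 ≤ a ∧ a < c ∧ c < d ∧ d < b ∧
      (α * a ^ 4 + γ * a ^ 2) + (α * b ^ 4 + γ * b ^ 2) =
      (α * c ^ 4 + γ * c ^ 2) + (α * d ^ 4 + γ * d ^ 2) := by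
  obtain ⟨N, hN, hN1⟩ : ∃ N : ℤ, B ≤ N ∧ 1 ≤ N := ⟨|B| + 1, by linarith [le_abs_self B], by
    linarith [abs_nonneg B]⟩
  by_cases hα : α = 0
  · subst hα
    exact ⟨N, 4 * N, 7 * N, 8 * N, hN, by linarith, by linarith, by linarith, by linarith, by ring⟩
  by_cases hγ : γ = 0
  · subst hγ
    exact ⟨59 * N, 133 * N, 134 * N, 158 * N, by linarith, by linarith, by linarith, by linarith,
      by linarith, by ring⟩
  have hαγ : 1 ≤ |α * γ| := Int.one_le_abs (mul_ne_zero hα hγ)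
  have hz : 200 ≤ 200 * (α * γ) ∨ 200 * (α * γ) ≤ -200 := by
    rcases le_total 0 (α * γ) with h | h
    · left; rw [abs_of_nonneg h] at hαγ; linarith
    · right; rw [abs_of_nonpos h] at hαγ; linarith
  obtain ⟨z, hzd⟩ : ∃ z, z = 200 * (α * γ) := ⟨_, rfl⟩
  rw [← hzd] at hz
  have hzm : z * γ = 2 * α * (10 * γ) ^ 2 := by rw [hzd]; ring
  have hD : 0 < 144 * z ^ 4 + 460 * z ^ 3 + 201 * z ^ 2 + 30 * z + 1 := by
    nlinarith [lowerSq z hz, sq_nonneg (72 * z ^ 2 + 115 * z - 42)]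
  obtain ⟨x, y, hp, hx, hy⟩ := pell_big _ N hD (nonsq z hz) (by linarith)
  have hy0 : 0 < y := by linarith
  have hord : y ≤ |x - (12 * z ^ 2 + 29 * z + 5) * y| ∧
    (x - (12 * z ^ 2 + 29 * z + 5) * y) ^ 2 < (x - (12 * z ^ 2 - 3 * z - 3) * y) ^ 2 ∧
    (x - (12 * z ^ 2 - 3 * z - 3) * y) ^ 2 < (2 * (x - (12 * z ^ 2 + 8 * z + 2) * y)) ^ 2 ∧
    (2 * (x - (12 * z ^ 2 + 8 * z + 2) * y)) ^ 2
      < (2 * (x - (12 * z ^ 2 + 6 * z) * y)) ^ 2 := by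
    rcases hz with h | h
    · exact order_pos z x y h hx hy0 hp
    · exact order_neg z x y h hx hy0 hp
  obtain ⟨h1, h2, h3, h4⟩ := hord
  have hid := ident α γ (10 * γ) z x y hzm hp
  generalize x - (12 * z ^ 2 + 29 * z + 5) * y = b' at h1 h2 hid
  generalize x - (12 * z ^ 2 - 3 * z - 3) * y = d' at h2 h3 hid
  generalize 2 * (x - (12 * z ^ 2 + 8 * z + 2) * y) = c' at h3 h4 hid
  generalize 2 * (x - (12 * z ^ 2 + 6 * z) * y) = a' at h4 hid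
  have hm : 1 ≤ |10 * γ| := Int.one_le_abs (mul_ne_zero (by norm_num) hγ)
  have key : ∀ u v : ℤ, u ^ 2 < v ^ 2 → |10 * γ * u| < |10 * γ * v| := by
    intro u v huv
    have hm0 : (0 : ℤ) < |10 * γ| := by linarith
    rw [abs_mul (10 * γ) u, abs_mul (10 * γ) v]
    exact mul_lt_mul_of_pos_left (sq_lt_sq.mp huv) hm0
  have e4 : ∀ u : ℤ, α * |u| ^ 4 + γ * |u| ^ 2 = α * u ^ 4 + γ * u ^ 2 := by
    intro u
    have : |u| ^ 4 = u ^ 4 := by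
      calc |u| ^ 4 = (|u| ^ 2) ^ 2 := by ring
        _ = (u ^ 2) ^ 2 := by rw [sq_abs]
        _ = u ^ 4 := by ring
    rw [this, sq_abs]
  refine ⟨|10 * γ * b'|, |10 * γ * d'|, |10 * γ * c'|, |10 * γ * a'|, ?_, abs_nonneg _, key _ _ h2,
    key _ _ h3, key _ _ h4, ?_⟩
  · rw [abs_mul (10 * γ) b']
    have : 1 * |b'| ≤ |10 * γ| * |b'| := mul_le_mul_of_nonneg_right hm (abs_nonneg _)
    linarith
  · rw [e4, e4, e4, e4]
    exact hid

/-- A polynomial of degree at most four that is symmetric about an integer point takes equal pair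
sums beyond every bound. -/
theorem result (α γ ε h : ℤ) (B : ℕ) :
    ∃ a c d b : ℕ, B ≤ a ∧ a < c ∧ c < d ∧ d < b ∧
      (α * ((a : ℤ) - h) ^ 4 + γ * ((a : ℤ) - h) ^ 2 + ε)
        + (α * ((b : ℤ) - h) ^ 4 + γ * ((b : ℤ) - h) ^ 2 + ε) =
      (α * ((c : ℤ) - h) ^ 4 + γ * ((c : ℤ) - h) ^ 2 + ε)
        + (α * ((d : ℤ) - h) ^ 4 + γ * ((d : ℤ) - h) ^ 2 + ε) := by
  obtain ⟨a, c, d, b, h1, h0, h2, h3, h4, h5⟩ := coreZ α γ (B + |h|)
  have hB : (0 : ℤ) ≤ B := by positivity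
  have hh := neg_abs_le h
  obtain ⟨a', ha⟩ := Int.eq_ofNat_of_zero_le (a := a + h) (by linarith)
  obtain ⟨c', hc⟩ := Int.eq_ofNat_of_zero_le (a := c + h) (by linarith)
  obtain ⟨d', hd⟩ := Int.eq_ofNat_of_zero_le (a := d + h) (by linarith)
  obtain ⟨b', hb⟩ := Int.eq_ofNat_of_zero_le (a := b + h) (by linarith)
  refine ⟨a', c', d', b', by omega, by omega, by omega, by omega, ?_⟩
  have ea : (a' : ℤ) - h = a := by linarith
  have ec : (c' : ℤ) - h = c := by linarith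
  have ed : (d' : ℤ) - h = d := by linarith
  have eb : (b' : ℤ) - h = b := by linarith
  rw [ea, ec, ed, eb]
  linarith

end Pool.Agent.Results.MP_2c7719_nt.SymmetricQuartics
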